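import Mathlib
import Pool.Agent.H68.AutoDefs
import Pool.Agent.H68.Twist

set_option autoImplicit false

namespace Pool.Agent.Results.MP_3489e4_al.NoShortLex

open Pool.Agent.H68.Auto

theorem result : ∃ (G : Type) (_ : Group G) (A : Finset G), Subgroup.closure (A : Set G) = ⊤ ∧
    (∀ a ∈ A, a⁻¹ ∈ A) ∧
    (∃ L : Language A, IsAutomatic A L ∧ ∀ w ∈ L, IsGeodesic w) ∧
    ∀ o : LinearOrder A, ¬ IsAutomatic A (shortLex A o) := by
  open Pool.Agent.H68.Twist in
  exact ⟨G, inferInstance, A, A_gen, fun a ha => (mem_A _).2 (by rw [N_inv, (mem_A _).1 ha]),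
    ⟨LL, ⟨LL_regular, LL_onto, LL_mult 1 (by decide), fun a ha => LL_mult a ((mem_A _).1 ha).le⟩,
      LL_geo⟩, no_order⟩

end Pool.Agent.Results.MP_3489e4_al.NoShortLex
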